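import Pool.Agent.U536.CF.F
import Pool.Agent.Results.MP_005f52_nt.MultiplicativeValues
import Pool.Agent.U536.CF.Tail

/-!
# Negative odd integers near integers with a large common factor with a value of a multiplicative function

Let `f` be a positive multiplicative function of at most polynomial growth such that `f p ≤ M p` for the large primes `p`,
with different values at different large primes; for example Euler's function or the sum of the divisors. Let `G` have
steps bounded below by a positive constant and growth at most `v^e`, for example `α v^e`. Let `b < 1` and `0 ≤ c < 2 b -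
1`. For all `m ≤ N` but `N exp (-(log N)^c)`, for EVERY integer `w ≥ exp ((log N)^b)` with `gcd(w, f(m)) ≥ w^ρ`, the
Syracuse orbit of EVERY negative odd integer `x` with `||x| - G w| ≤ w ^ κ` enters `[-|x| ^ δ, -1]`, if `κ ≥ 0`, `0 < δ ≤
1` and `e (1 - C δ) + κ < ρ ≤ 1`; here `0.0500... = 1 - H(log_3 2) < C < 1` is a constant. The integers `w` include all
large divisors of `f(m)` and their multiples by small integers; for Euler's function, the orders of the elements of the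
group of units modulo `m`.

Proof. Write `m = k u` with `u` squarefree and composed of primes larger than `N^(1/J)`, `J = (log N)^a`, and `k ≤ exp (4
(log N)^a)`; this is possible for all `m ≤ N` but very few. If `v ∣ f(k) f(u)`, then `v = g v'` with `g ∣ f(k)` and `v' ∣
∏ f(p)`, and the number of such `u ≤ N / k` is at most `N / (k v')` times `(log N)^O(J)` times the number `τ_J(v')` of the
ordered factorizations of `v'` into `J` factors. The inequality `τ_J^q ≤ τ_K` for `K ≥ J^q` and Hölder's inequality bound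
the sum over the sparse set of the exceptional `v`. The file `MultiplicativeValues` of the starting library treats the
integers `w = f(m)`, with `N / (log N)^U` exceptions.
-/

set_option autoImplicit false

namespace Pool.Agent.Results.MP_005f52_nt.CommonFactors

open Pool.Agent.Results.MP_fd8838_nt.MultiplicativeValues (T)
open Pool.Agent.N733.TG (LM Expanding lm_totient lm_sigma expanding_pow)
open Pool.Agent.U536.CF (Common common_tail common_of_dvd common_order)
open Pool.Agent.Results.MP_005f52_nt.MultiplicativeValues (Syr r0 odd_part iter_neg)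

/-- **Negative odd integers near integers with a large common factor with a value of a multiplicative function.** Let `f` be
multiplicative and positive, of at most polynomial growth, with `f p ≤ M p` at the large primes, and injective there. Let
`G` have steps `≥ a > 0` and growth at most `v^e`. Let `b < 1` and `0 ≤ c < 2 b - 1`, `κ ≥ 0`, `0 < δ ≤ 1` and `e (1 - C
δ) + κ < ρ ≤ 1`; here `0.0500... = 1 - H(log_3 2) < C < 1` is a constant. For all large `N`, for all `m ≤ N` but `N exp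
(-(log N)^c)`, for EVERY integer `w ≥ exp ((log N)^b)` with `gcd(w, f(m)) ≥ w^ρ`, the Syracuse orbit of EVERY negative odd
integer `x` with `||x| - G w| ≤ w ^ κ` enters `[-|x| ^ δ, -1]`. All divisors `w ≥ exp ((log N)^b)` of `f(m)` are such
integers `w`, and for Euler's function the orders `≥ exp ((log N)^b)` of the units modulo `m`. Euler's function and the
sum of the divisors are examples of `f`, and `α v^e` with `α > 0`, `e ≥ 1` is an example of `G`. -/
theorem result :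
    (∃ C : ℝ, 1 - Real.binEntropy (Real.log 2 / Real.log 3) / Real.log 2 < C ∧ C < 1 ∧
      ∀ f : ℕ → ℕ, LM f → ∀ (G : ℕ → ℝ) (e : ℝ), Expanding G e → ∀ κ δ ρ b c : ℝ, 0 ≤ κ → 0 < δ → δ ≤ 1 →
        e * (1 - C * δ) + κ < ρ → ρ ≤ 1 → b < 1 → 0 ≤ c → c < 2 * b - 1 → ∃ N₀ : ℕ, ∀ N : ℕ, N₀ ≤ N →
          ({m : ℕ | 1 ≤ m ∧ m ≤ N ∧ ¬ ∀ w : ℕ, Common f b ρ N m w → ∀ x : ℤ, x < 0 → Odd x →
            |(|x| : ℝ) - G w| ≤ (w : ℝ) ^ κ →
            ∃ k : ℕ, -|(x : ℝ)| ^ δ ≤ ((Syr^[k] x : ℤ) : ℝ) ∧ Syr^[k] x ≤ -1}.ncard : ℝ) ≤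
            N * Real.exp (-(Real.log N ^ c))) ∧
    (LM Nat.totient ∧ LM (fun m => ∑ d ∈ m.divisors, d)) ∧
    (∀ α d : ℝ, 0 < α → 1 ≤ d → Expanding (fun v => α * (v : ℝ) ^ d) d) ∧
    (∀ (f : ℕ → ℕ) (b ρ : ℝ) (N m w : ℕ), ρ ≤ 1 → Real.exp (Real.log N ^ b) ≤ (w : ℝ) → w ∣ f m → Common f b ρ N m w) ∧
    ∀ (b ρ : ℝ) (N m : ℕ), ρ ≤ 1 → ∀ x : (ZMod m)ˣ, Real.exp (Real.log N ^ b) ≤ (orderOf x : ℝ) →
      Common Nat.totient b ρ N m (orderOf x) := by
  refine ⟨?_, ⟨lm_totient, lm_sigma⟩, fun α d hα hd => expanding_pow hα hd, fun f b ρ N m w hρ hw hd => common_of_dvd hρ hw hd,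
    fun b ρ N m hρ x hx => common_order hρ x hx⟩
  obtain ⟨c, hc0, hc1, hch, htail⟩ := Pool.Agent.Results.MP_fd8838_nt.MultiplicativeValues.tail 2 3 le_rfl (by norm_num)
    (by norm_num) (by norm_num)
  have hent := hch (by norm_num)
  push_cast at hent
  rw [Real.qaryEntropy_two] at hent
  refine ⟨c, hent, hc1, fun f hf G e hG κ δ ρ b c' hκ hδ0 hδ1 h1 hρ hb hc' hcb => ?_⟩
  obtain ⟨C, hC, hcount⟩ := htail r0 (by
    intro j h1 h2
    obtain rfl : j = 1 := by omega
    unfold r0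
    decide)
  obtain ⟨N₀, hN₀⟩ := common_tail (P := fun x y => ∀ k : ℕ, y < |(((T 2 3 r0)^[k] x : ℤ) : ℝ)|)
    (fun x y y' hy h k => lt_of_le_of_lt hy (h k)) hC hc0 hcount hδ0 (by nlinarith) hf hG hκ h1 hρ hb hc' hcb
  refine ⟨N₀, fun N hN => le_trans ?_ (hN₀ N hN)⟩
  have hfin : {u : ℕ | 1 ≤ u ∧ u ≤ N ∧ ¬ ∀ w : ℕ, Common f b ρ N u w → ∀ x : ℤ, x ≠ 0 →
      |(|x| : ℝ) - G w| ≤ (w : ℝ) ^ κ →
      ¬ ∀ k : ℕ, |(x : ℝ)| ^ δ < |(((T 2 3 r0)^[k] x : ℤ) : ℝ)|}.Finite := by
    apply (Set.finite_Icc 1 N).subset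
    intro u hu
    exact ⟨hu.1, hu.2.1⟩
  have hsub : {u : ℕ | 1 ≤ u ∧ u ≤ N ∧ ¬ ∀ w : ℕ, Common f b ρ N u w → ∀ n : ℤ, n < 0 → Odd n →
      |(|n| : ℝ) - G w| ≤ (w : ℝ) ^ κ →
      ∃ k : ℕ, -|(n : ℝ)| ^ δ ≤ ((Syr^[k] n : ℤ) : ℝ) ∧ Syr^[k] n ≤ -1} ⊆
      {u : ℕ | 1 ≤ u ∧ u ≤ N ∧ ¬ ∀ w : ℕ, Common f b ρ N u w → ∀ x : ℤ, x ≠ 0 →
      |(|x| : ℝ) - G w| ≤ (w : ℝ) ^ κ →
      ¬ ∀ k : ℕ, |(x : ℝ)| ^ δ < |(((T 2 3 r0)^[k] x : ℤ) : ℝ)|} := by
    rintro u ⟨a1, a2, a3⟩
    refine ⟨a1, a2, fun h => a3 fun w hw n hn hodd hx => ?_⟩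
    have h2 := h w hw n hn.ne hx
    push Not at h2
    obtain ⟨k, hk⟩ := h2
    have hn2 : ¬ (2 : ℤ) ∣ n := by
      rw [Int.odd_iff] at hodd
      omega
    obtain ⟨j, a, h3, h4⟩ := odd_part hn2 k
    have h5 := iter_neg hn k
    have h6 : (0 : ℤ) < 2 ^ a := by positivity
    have h7 : Syr^[j] n < 0 := by
      by_contra hcon
      push Not at hcon
      have : 0 ≤ 2 ^ a * Syr^[j] n := mul_nonneg h6.le hcon
      omega
    refine ⟨j, ?_, by omega⟩
    have h8 : |((Syr^[j] n : ℤ) : ℝ)| ≤ |(((T 2 3 r0)^[k] n : ℤ) : ℝ)| := by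
      rw [h3]
      push_cast
      rw [abs_mul, abs_of_pos (by positivity : (0 : ℝ) < 2 ^ a)]
      have : (1 : ℝ) ≤ 2 ^ a := one_le_pow₀ (by norm_num)
      nlinarith [abs_nonneg ((Syr^[j] n : ℤ) : ℝ)]
    have h9 := neg_abs_le ((Syr^[j] n : ℤ) : ℝ)
    linarith
  exact_mod_cast Set.ncard_le_ncard hsub hfin

end Pool.Agent.Results.MP_005f52_nt.CommonFactors
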