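import Pool.Agent.U923.CZ.Gen
import Pool.Agent.R468.GL.Neg

/-!
THE DIGITS OF THE ENTRANCE TIMES for the Syracuse map on the negative odd integers.

Author: helper923. Starts from the local limit law of the entrance times (starting library,
Pool/Agent/R468/GL, helper468). New here (Pool/Agent/U923/CZ): the transfer principle for the local limit
laws with a periodic factor, uniformly in the size of the time, and the sums of digits of the integers in
long intervals, twisted by characters.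
-/

set_option autoImplicit false

namespace Pool.Agent.Results.MP_005f52_nt.DigitsOfEntranceTimes

open Filter Topology

/-- The Syracuse map. -/
def Syr (N : ℤ) : ℤ := (3 * N + 1) / 2 ^ padicValInt 2 (3 * N + 1)

/-- The orbit of `N` enters `Z`. -/
def Enters (Z : Finset ℤ) (N : ℤ) : Prop := ∃ k : ℕ, Syr^[k] N ∈ Z

/-- The entrance time of the orbit of `N` into `Z`: the least `k ≥ 0` with `Syr^k(N)` in `Z` (used only if
the orbit enters `Z`). -/
noncomputable def time (Z : Finset ℤ) (N : ℤ) : ℕ := sInf {k : ℕ | Syr^[k] N ∈ Z}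

/-- The sum of the digits of `n` in base `b`. -/
def digitSum (b n : ℕ) : ℕ := (Nat.digits b n).sum

/-- Among the negative odd integers, those with the property `P` have natural density `δ`:
`2 / X` times the number of negative odd `N ≥ -X` with `P N` tends to `δ`. -/
def HasDensity (P : ℤ → Prop) (δ : ℝ) : Prop :=
  Tendsto (fun X : ℕ => 2 / (X : ℝ) * ({N : ℤ | -(X : ℤ) ≤ N ∧ N < 0 ∧ Odd N ∧ P N}.ncard : ℝ))
    atTop (𝓝 δ)

open Classical in
/-- the odd integers `n ≤ x` for which the orbit of `-n` enters `Z` -/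
noncomputable def S (Z : Finset ℤ) (x : ℝ) : Finset ℕ := (Finset.Icc 1 ⌊x⌋₊).filter fun n => n % 2 = 1 ∧ Enters Z (-(n : ℤ))

/-- the entrance time of `-n` -/
noncomputable def tm (Z : Finset ℤ) (n : ℕ) : ℕ := time Z (-(n : ℤ))

theorem mem_S {Z : Finset ℤ} {x : ℝ} {n : ℕ} : n ∈ S Z x ↔ (n : ℝ) ≤ x ∧ n % 2 = 1 ∧ Enters Z (-(n : ℤ)) := by
  classical
  unfold S
  rw [Finset.mem_filter, Finset.mem_Icc]
  constructor
  · rintro ⟨⟨h1, h2⟩, h3⟩
    exact ⟨(Nat.le_floor_iff' (by omega)).1 h2, h3⟩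
  · rintro ⟨h2, h3⟩
    have := h3.1
    exact ⟨⟨by omega, (Nat.le_floor_iff' (by omega)).2 h2⟩, h3⟩

theorem time_eq {Z : Finset ℤ} {N : ℤ} {k : ℕ} (h : Enters Z N) :
    time Z N = k ↔ (Syr^[k] N ∈ Z ∧ ∀ i < k, Syr^[i] N ∉ Z) := by
  have hne : {k : ℕ | Syr^[k] N ∈ Z}.Nonempty := h
  have h1 : Syr^[time Z N] N ∈ Z := Nat.sInf_mem hne
  have h2 : ∀ i < time Z N, Syr^[i] N ∉ Z := fun i hi h' => Nat.notMem_of_lt_sInf hi h'
  constructor
  · rintro rfl
    exact ⟨h1, h2⟩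
  · rintro ⟨h3, h4⟩
    rcases lt_trichotomy (time Z N) k with h5 | h5 | h5
    · exact absurd h1 (h4 _ h5)
    · exact h5
    · exact absurd h3 (h2 _ h5)

theorem neg_image (P : ℤ → Prop) (x : ℝ) : {N : ℤ | -x ≤ (N : ℝ) ∧ N < 0 ∧ Odd N ∧ P N}.ncard =
    {n : ℕ | (n : ℝ) ≤ x ∧ n % 2 = 1 ∧ P (-(n : ℤ))}.ncard := by
  have e : {N : ℤ | -x ≤ (N : ℝ) ∧ N < 0 ∧ Odd N ∧ P N}
      = (fun n : ℕ => -(n : ℤ)) '' {n : ℕ | (n : ℝ) ≤ x ∧ n % 2 = 1 ∧ P (-(n : ℤ))} := by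
    ext N
    constructor
    · rintro ⟨g1, g2, g3, g4⟩
      have g3' := Int.odd_iff.1 g3
      have g5 : -((N.natAbs : ℕ) : ℤ) = N := by omega
      have g6 : ((N.natAbs : ℕ) : ℝ) = -(N : ℝ) := by
        have h7 : ((N.natAbs : ℕ) : ℤ) = -N := by omega
        have h8 : (((N.natAbs : ℕ) : ℤ) : ℝ) = ((-N : ℤ) : ℝ) := by rw [h7]
        rw [Int.cast_natCast, Int.cast_neg] at h8
        exact h8
      refine ⟨N.natAbs, ⟨by rw [g6]; linarith, by omega, ?_⟩, g5⟩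
      rw [g5]; exact g4
    · rintro ⟨n, ⟨g1, g3, g4⟩, rfl⟩
      refine ⟨?_, ?_, ?_, g4⟩
      · push_cast
        linarith
      · show -(n : ℤ) < 0
        omega
      · rw [Int.odd_iff]
        show -(n : ℤ) % 2 = 1
        omega
  rw [e, Set.ncard_image_of_injective _ (fun a b hab => by
    have : -(a : ℤ) = -(b : ℤ) := hab
    omega)]

theorem set_S (Z : Finset ℤ) (x : ℝ) (Q : ℕ → Prop) [DecidablePred Q] :
    {n : ℕ | (n : ℝ) ≤ x ∧ n % 2 = 1 ∧ Enters Z (-(n : ℤ)) ∧ Q n}.ncard = ((S Z x).filter Q).card := by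
  rw [← Set.ncard_coe_finset]
  congr 1
  ext n
  rw [Finset.mem_coe, Finset.mem_filter, mem_S, Set.mem_ofPred_eq]
  tauto

theorem set_S' (Z : Finset ℤ) (x : ℝ) :
    {n : ℕ | (n : ℝ) ≤ x ∧ n % 2 = 1 ∧ Enters Z (-(n : ℤ))}.ncard = (S Z x).card := by
  rw [← Set.ncard_coe_finset]
  congr 1
  ext n
  rw [Finset.mem_coe, mem_S, Set.mem_ofPred_eq]

theorem nat_real (P : ℤ → Prop) (X : ℕ) : {N : ℤ | -(X : ℤ) ≤ N ∧ N < 0 ∧ Odd N ∧ P N} =
    {N : ℤ | -(X : ℝ) ≤ (N : ℝ) ∧ N < 0 ∧ Odd N ∧ P N} := by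
  ext N
  rw [Set.mem_ofPred_eq, Set.mem_ofPred_eq]
  have : (-(X : ℤ) ≤ N) ↔ (-(X : ℝ) ≤ (N : ℝ)) := by
    constructor
    · intro h; exact_mod_cast h
    · intro h; exact_mod_cast h
  rw [this]

theorem law_t {Z : Finset ℤ} (hne : Z.Nonempty) (hZ : ∀ y ∈ Z, y < 0 ∧ Odd y) (hS : ∀ y ∈ Z, Syr y ∈ Z) :
    ∃ (δ : ℝ) (Ψ : ℝ → ℝ), 0 < δ ∧ δ ≤ 1 ∧ (δ = 1 ↔ ∀ N : ℤ, N < 0 → Odd N → Enters Z N) ∧
    Tendsto (fun X : ℕ => 2 / (X : ℝ) * ((S Z X).card : ℝ)) atTop (𝓝 δ) ∧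
    Pool.Agent.R468.MF.Law (Pool.Agent.U923.CZ.NG 2 (S Z) (tm Z)) (1 / Real.log (4 / 3))
      (2 * Real.log 2 ^ 2 / Real.log (4 / 3) ^ 3) (-Real.logb 2 3) (fun x => Real.logb 2 x) Ψ δ := by
  classical
  obtain ⟨δ, Ψ, h0, h1, h2, h3, h4, h5, h6, h7, h8⟩ := Pool.Agent.R468.GL.law_neg hne
    (fun y hy => ⟨(hZ y hy).1, Int.odd_iff.1 (hZ y hy).2⟩) hS
  have hD' : Tendsto (fun X : ℕ => 2 / (X : ℝ) * ((S Z X).card : ℝ)) atTop (𝓝 δ) := by
    have g1 := h3.const_mul 2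
    rw [mul_div_cancel₀ δ (by norm_num : (2 : ℝ) ≠ 0)] at g1
    refine g1.congr fun X => ?_
    have e : {n : ℕ | 1 ≤ n ∧ n ≤ X ∧ (n % 2 = 1 ∧ ∃ k : ℕ, Pool.Agent.W26.HN.Sy^[k] (-(n : ℤ)) ∈ Z)} = (S Z (X : ℝ) : Set ℕ) := by
      ext n
      rw [Finset.mem_coe, mem_S, Set.mem_ofPred_eq, Nat.cast_le]
      constructor
      · rintro ⟨a1, a2, a3, a4⟩; exact ⟨a2, a3, a4⟩
      · rintro ⟨a2, a3, a4⟩; exact ⟨by omega, a2, a3, a4⟩
    unfold Pool.Agent.H499R2.ND.cnt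
    rw [e, Set.ncard_coe_finset]
    ring
  refine ⟨δ, Ψ, h0, h1, ?_, hD', ?_⟩
  · rw [h2]
    exact forall_congr' fun N => forall_congr' fun _ => by rw [Int.odd_iff]; rfl
  · have hl2 : 0 < Real.log 2 := Real.log_pos (by norm_num)
    have hl3 : 0 < Real.log (4 / 3) := Real.log_pos (by norm_num)
    have hirr : Irrational (Real.logb 2 3) := by
      have := Pool.Agent.R468.MF.kw_irr Pool.Agent.R468.GL.PO
      rw [Pool.Agent.R468.GL.kap_PO, Pool.Agent.R468.GL.ww_PO, neg_div] at this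
      exact irrational_neg_iff.1 this
    refine Pool.Agent.U923.CZ.law_of two_pos (by positivity) (by positivity) (irrational_neg_iff.2 hirr) h4 h5
      (fun t => (mul_nonneg h0.le hl2.le).trans (h6 t).1) h7 ?_ ?_
    · intro ε hε
      obtain ⟨N₀, hN⟩ := eventually_atTop.1 (hD'.eventually_lt_const (show δ < δ + ε by linarith))
      refine ⟨max (N₀ + 1) 2, fun x hx => ?_⟩
      have hx2 : 2 ≤ x := (le_max_right _ _).trans hx
      have hx0 : 0 < x := by linarith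
      have hxN : (N₀ : ℝ) + 1 ≤ x := (le_max_left _ _).trans hx
      have g1 : N₀ ≤ ⌊x⌋₊ := Nat.le_floor (by linarith)
      have g2 : 1 ≤ ⌊x⌋₊ := Nat.le_floor (by push_cast; linarith)
      have g3 := hN ⌊x⌋₊ g1
      have hf : (0 : ℝ) < (⌊x⌋₊ : ℕ) := by exact_mod_cast g2
      have e : S Z ((⌊x⌋₊ : ℕ) : ℝ) = S Z x := by
        ext n
        rw [mem_S, mem_S, Nat.cast_le, Nat.le_floor_iff hx0.le]
      rw [e, div_mul_eq_mul_div, div_lt_iff₀ hf] at g3
      have g4 := Nat.floor_le hx0.le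
      nlinarith
    · intro K ε hε
      obtain ⟨X₀, hX⟩ := h8 K ε hε
      refine ⟨max X₀ 2, fun x hx k hk => ?_⟩
      have hx0 : 0 < x := by linarith [(le_max_right X₀ 2).trans hx]
      have g1 := hX x ((le_max_left _ _).trans hx) k hk
      have e1 : {N : ℤ | -x ≤ (N : ℝ) ∧ N < 0 ∧ Odd N ∧ Pool.Agent.W26.HN.En Z k N}.ncard =
          ((S Z x).filter fun n => tm Z n = k).card := by
        rw [neg_image, ← set_S]
        congr 1
        ext n
        rw [Set.mem_ofPred_eq, Set.mem_ofPred_eq]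
        refine and_congr_right fun _ => and_congr_right fun _ => ?_
        constructor
        · rintro ⟨a1, a2⟩
          have hE : Enters Z (-(n : ℤ)) := ⟨k, a1⟩
          exact ⟨hE, (time_eq hE).2 ⟨a1, a2⟩⟩
        · rintro ⟨hE, a2⟩
          exact (time_eq hE).1 a2
      rw [e1] at g1
      have e3 : Real.logb 2 (3 ^ k * x) = Real.logb 2 x - k * -Real.logb 2 3 := by
        rw [Real.logb_mul (by positivity) hx0.ne', Real.logb_pow]
        ring
      rw [e3] at g1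
      have e4 : (2 : ℝ) * (((S Z x).filter fun n => tm Z n = k).card : ℝ) / (x * Pool.Agent.R468.MF.gn (1 / Real.log (4 / 3))
          (2 * Real.log 2 ^ 2 / Real.log (4 / 3) ^ 3) x k) = (((S Z x).filter fun n => tm Z n = k).card : ℝ) /
          (x / 2 * Pool.Agent.R468.MF.gn (1 / Real.log (4 / 3)) (2 * Real.log 2 ^ 2 / Real.log (4 / 3) ^ 3) x k) := by
        rw [div_mul_eq_mul_div, div_div_eq_mul_div, mul_comm (2 : ℝ)]
      rw [e4]
      have e2 : Pool.Agent.R468.MF.gn (1 / Real.log (4 / 3)) (2 * Real.log 2 ^ 2 / Real.log (4 / 3) ^ 3) x k =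
          Real.exp (-(((k : ℝ) - 1 / Real.log (4 / 3) * Real.log x) ^ 2 /
          (2 * (2 * Real.log 2 ^ 2 / Real.log (4 / 3) ^ 3 * Real.log x)))) /
          Real.sqrt (2 * Real.pi * (2 * Real.log 2 ^ 2 / Real.log (4 / 3) ^ 3 * Real.log x)) := by
        unfold Pool.Agent.R468.MF.gn Pool.Agent.R468.MF.sd
        push_cast
        rfl
      rw [e2]
      exact g1

open Pool.Agent.U923.CZ in
/-- THE DIGITS OF THE ENTRANCE TIMES. Let `Z` be a nonempty finite set of negative odd integers with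
`Syr(Z) ⊆ Z` (for example one of the periodic orbits, known or not, or the set `C` of the problem). There
is `δ` with

* `0 < δ ≤ 1`, `δ` is the density, among the negative odd integers, of those whose orbit enters `Z`, and
  `δ = 1` iff all orbits of negative odd integers enter `Z` (for the set `C`: iff Q1 holds);
* for all `b ≥ 2`, all `q ≥ 1` coprime to `b - 1` and every `a`, the negative odd integers whose orbit
  enters `Z` after a number of steps whose sum of digits in base `b` is congruent to `a` modulo `q` have the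
  density `δ / q`, and this holds at all sizes of the entrance time: uniformly for the integers `κ ≥ 0` the
  number of these `N ≥ -x` with entrance time at most `κ` is `1 / q` times the number of all `N ≥ -x`
  (negative, odd) with entrance time at most `κ`, up to `o(x)`. -/
theorem result (Z : Finset ℤ) (hne : Z.Nonempty) (hZ : ∀ y ∈ Z, y < 0 ∧ Odd y)
    (hS : ∀ y ∈ Z, Syr y ∈ Z) : ∃ δ : ℝ, 0 < δ ∧ δ ≤ 1 ∧
    (δ = 1 ↔ ∀ N : ℤ, N < 0 → Odd N → Enters Z N) ∧ HasDensity (Enters Z) δ ∧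
    ∀ b q : ℕ, 2 ≤ b → 1 ≤ q → Nat.Coprime q (b - 1) → ∀ a : ℕ,
      HasDensity (fun N => Enters Z N ∧ digitSum b (time Z N) % q = a % q) (δ / q) ∧
      ∀ ε : ℝ, 0 < ε → ∃ X₀ : ℝ, ∀ x : ℝ, X₀ ≤ x → ∀ κ : ℕ,
        |({N : ℤ | -x ≤ (N : ℝ) ∧ N < 0 ∧ Odd N ∧ Enters Z N ∧ time Z N ≤ κ ∧
            digitSum b (time Z N) % q = a % q}.ncard : ℝ) -
          1 / q * {N : ℤ | -x ≤ (N : ℝ) ∧ N < 0 ∧ Odd N ∧ Enters Z N ∧ time Z N ≤ κ}.ncard| ≤ ε * x := by
  classical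
  obtain ⟨δ, Ψ, h0, h1, h2, h3, L⟩ := law_t hne hZ hS
  have hD : HasDensity (Enters Z) δ := by
    unfold HasDensity
    refine h3.congr fun X => ?_
    rw [nat_real, neg_image, set_S']
  refine ⟨δ, h0, h1, h2, hD, fun b q hb hq hcop a => ?_⟩
  have hcut := dig_cut L (by
    have : 0 < Real.log (4 / 3) := Real.log_pos (by norm_num)
    positivity) two_pos (NG_lev 2 (S Z) (tm Z)) hb hq hcop a
  have hq0 : (0 : ℝ) < q := by exact_mod_cast (by omega : 0 < q)
  refine ⟨?_, fun ε hε => ?_⟩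
  · unfold HasDensity
    have h4 := h3.const_mul (1 / q : ℝ)
    rw [show 1 / (q : ℝ) * δ = δ / q by ring] at h4
    rw [Metric.tendsto_atTop] at h4 ⊢
    intro ε hε
    obtain ⟨N₁, h5⟩ := h4 (ε / 2) (by positivity)
    obtain ⟨X₀, hX⟩ := hcut (ε / 8) (by positivity)
    refine ⟨max N₁ (⌈X₀⌉₊ + 1), fun M hM => ?_⟩
    have h6 := h5 M ((le_max_left _ _).trans hM)
    have hMX : X₀ ≤ M := (Nat.le_ceil X₀).trans (by
      have := (le_max_right N₁ (⌈X₀⌉₊ + 1)).trans hM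
      exact_mod_cast (by omega : ⌈X₀⌉₊ ≤ M))
    have hM1 : 1 ≤ M := by
      have := (le_max_right N₁ (⌈X₀⌉₊ + 1)).trans hM
      omega
    have hM0 : (0 : ℝ) < M := by exact_mod_cast hM1
    obtain ⟨κ, hκ⟩ : ∃ κ : ℕ, ∀ m ∈ S Z (M : ℝ), tm Z m ≤ κ := ⟨(S Z (M : ℝ)).sup (tm Z), fun m hm => Finset.le_sup hm⟩
    have h7 := hX M hMX κ
    have e3 : (S Z (M : ℝ)).filter (fun m => tm Z m ≤ κ) = S Z (M : ℝ) := Finset.filter_true_of_mem hκ
    rw [e3] at h7
    have e5 : {N : ℤ | -(M : ℤ) ≤ N ∧ N < 0 ∧ Odd N ∧ Enters Z N ∧ digitSum b (time Z N) % q = a % q}.ncard =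
        ((S Z (M : ℝ)).filter fun n => (Nat.digits b (tm Z n)).sum % q = a % q).card := by
      rw [nat_real (fun N => Enters Z N ∧ digitSum b (time Z N) % q = a % q), neg_image, ← set_S]
      rfl
    rw [Real.dist_eq] at h6
    rw [e5, Real.dist_eq]
    set s1 : ℝ := (((S Z (M : ℝ)).filter fun n => (Nat.digits b (tm Z n)).sum % q = a % q).card : ℝ)
    set s2 : ℝ := ((S Z (M : ℝ)).card : ℝ)
    have h8 : |2 / (M : ℝ) * s1 - 1 / q * (2 / M * s2)| ≤ ε / 4 := by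
      have e6 : 2 / (M : ℝ) * s1 - 1 / q * (2 / M * s2) = 2 / M * (s1 - 1 / q * s2) := by ring
      rw [e6, abs_mul, abs_of_pos (by positivity)]
      calc 2 / (M : ℝ) * |s1 - 1 / q * s2| ≤ 2 / M * (ε / 8 * M) := mul_le_mul_of_nonneg_left h7 (by positivity)
        _ = ε / 4 := by field_simp; ring
    have h9 : |2 / (M : ℝ) * s1 - δ / q| ≤ |2 / (M : ℝ) * s1 - 1 / q * (2 / M * s2)| +
        |1 / q * (2 / M * s2) - δ / q| := abs_sub_le _ _ _
    linarith
  · obtain ⟨X₀, hX⟩ := hcut ε hε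
    refine ⟨X₀, fun x hx κ => ?_⟩
    have h4 := hX x hx κ
    have e1 : {N : ℤ | -x ≤ (N : ℝ) ∧ N < 0 ∧ Odd N ∧ Enters Z N ∧ time Z N ≤ κ ∧
        digitSum b (time Z N) % q = a % q}.ncard =
        (((S Z x).filter (fun n => tm Z n ≤ κ)).filter fun n => (Nat.digits b (tm Z n)).sum % q = a % q).card := by
      rw [neg_image, Finset.filter_filter, ← set_S]
      rfl
    have e2 : {N : ℤ | -x ≤ (N : ℝ) ∧ N < 0 ∧ Odd N ∧ Enters Z N ∧ time Z N ≤ κ}.ncard =
        ((S Z x).filter (fun n => tm Z n ≤ κ)).card := by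
      rw [neg_image, ← set_S]
      rfl
    rw [e1, e2]
    exact h4

end Pool.Agent.Results.MP_005f52_nt.DigitsOfEntranceTimes
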