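import Mathlib
import Pool.Agent.U307.LR.G
import Pool.Agent.Results.MP_005f52_nt.SparseSequences

set_option autoImplicit false

/-!
# Syracuse orbits of odd integers near the terms of linear recurrences

A sequence of integers is called smooth if, for some step `M`, its `k`-th differences with step `M` are
divisible by `4 ^ k`, for all `k`. The smooth sequences form a ring, which contains every linear
recurrence with odd last coefficient (like the Fibonacci numbers, all polynomials, all `b ^ n` with `b` odd)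
and every Newton series `∑ c_j n (n - 1) ... (n - j + 1)`. A smooth sequence is spread modulo powers of two
if and only if it is constant on no arithmetic progression. Hence the Syracuse orbits of all the
odd integers, positive or negative, of a long interval around almost any term of such a sequence merge, and
they enter a given cycle after the same number of steps.
-/

namespace Pool.Agent.Results.MP_005f52_nt.LinearRecurrences

open Filter Topology

/-- The Syracuse map. -/
def Syr (N : ℤ) : ℤ := (3 * N + 1) / 2 ^ padicValInt 2 (3 * N + 1)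

/-- The Syracuse orbit of `N` enters `F` after exactly `k` steps. -/
def Enters (F : Finset ℤ) (k : ℕ) (N : ℤ) : Prop := Syr^[k] N ∈ F ∧ ∀ i < k, Syr^[i] N ∉ F

/-- `F` is a finite set of odd integers with `Syr F ⊆ F`, for example one of the known cycles, or a union
of cycles. -/
def Closed (F : Finset ℤ) : Prop := ∀ y ∈ F, Odd y ∧ Syr y ∈ F

/-- The sequence `x` is spread modulo powers of two: there is `δ > 0` such that for every `ε > 0` there
are `η > 0` and `N₀` such that, for `N ≥ N₀` and `2 ^ t ≤ N ^ δ`, at most `η 2 ^ t` classes modulo `2 ^ t`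
contain together at most `ε N` of the integers `x n`, `1 ≤ n ≤ N`. -/
def Spread (x : ℕ → ℤ) : Prop :=
  ∃ δ : ℝ, 0 < δ ∧ ∀ ε : ℝ, 0 < ε → ∃ η : ℝ, 0 < η ∧ ∃ N₀ : ℕ, ∀ N : ℕ, N₀ ≤ N →
    ∀ t : ℕ, (2 : ℝ) ^ t ≤ (N : ℝ) ^ δ → ∀ A : Finset ℤ, (A.card : ℝ) ≤ η * 2 ^ t →
      (({n | 1 ≤ n ∧ n ≤ N ∧ ∃ a ∈ A, x n ≡ a [ZMOD 2 ^ t]} : Set ℕ).ncard : ℝ) ≤ ε * N

/-- `P n` holds for almost all `n`, in the sense of natural density. -/
def AlmostAll (P : ℕ → Prop) : Prop :=
  Tendsto (fun N : ℕ => (({n | 1 ≤ n ∧ n ≤ N ∧ ¬ P n} : Set ℕ).ncard : ℝ) / N) atTop (𝓝 0)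

/-- The range: `W n = √ log n / (log log n) ^ 17`. -/
noncomputable def W (n : ℕ) : ℝ := √ (Real.log n) / (Real.log (Real.log n)) ^ 17

/-- The linear recurrence `u (n + d) = c 0 u (n) + ... + c (d - 1) u (n + d - 1)` with `c 0` odd. -/
def OddRec (u : ℕ → ℤ) : Prop :=
  ∃ (d : ℕ) (c : ℕ → ℤ), 1 ≤ d ∧ Odd (c 0) ∧ ∀ n, u (n + d) = ∑ i ∈ Finset.range d, c i * u (n + i)

/-- `u` is smooth: for some step `M ≥ 1`, `4 ^ k` divides all the `k`-th differences of `u` with step `M`,
for every `k`. -/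
def Smooth (u : ℕ → ℤ) : Prop :=
  ∃ M : ℕ, 1 ≤ M ∧ ∀ k n : ℕ,
    (4 : ℤ) ^ k ∣ ∑ j ∈ Finset.range (k + 1), (-1) ^ (k - j) * (k.choose j : ℤ) * u (n + j * M)

/-- `u` is constant on no arithmetic progression. -/
def NoConst (u : ℕ → ℤ) : Prop := ∀ a q : ℕ, 1 ≤ q → ∃ m, u (a + q * m) ≠ u a

open Pool.Agent.Results.MP_005f52_nt.SparseSequences in
theorem sp_iff (x : ℕ → ℤ) : Spread x ↔ Pool.Agent.Y967.CM.Spread x := spread_iff x

theorem AlmostAll.mono {P Q : ℕ → Prop} (h : AlmostAll P) (hPQ : ∀ n, P n → Q n) : AlmostAll Q :=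
  Pool.Agent.Results.MP_005f52_nt.SparseSequences.AlmostAll.mono h hPQ

theorem AlmostAll.and {P Q : ℕ → Prop} (h : AlmostAll P) (h' : AlmostAll Q) :
    AlmostAll (fun n => P n ∧ Q n) := by
  classical
  unfold AlmostAll at *
  have h3 := h.add h'
  rw [add_zero] at h3
  refine squeeze_zero (fun N => by positivity) (fun N => ?_) h3
  rw [← add_div]
  apply div_le_div_of_nonneg_right _ (Nat.cast_nonneg N)
  have h4 : ({n | 1 ≤ n ∧ n ≤ N ∧ ¬ (P n ∧ Q n)} : Set ℕ) ⊆
      {n | 1 ≤ n ∧ n ≤ N ∧ ¬ P n} ∪ {n | 1 ≤ n ∧ n ≤ N ∧ ¬ Q n} := by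
    rintro n ⟨h1, h2, h5⟩
    rw [not_and_or] at h5
    rcases h5 with h5 | h5
    · left; exact ⟨h1, h2, h5⟩
    · right; exact ⟨h1, h2, h5⟩
  have hfin : ∀ R : ℕ → Prop, ({n | 1 ≤ n ∧ n ≤ N ∧ R n} : Set ℕ).Finite := fun R =>
    (Set.finite_Icc 1 N).subset fun n hn => ⟨hn.1, hn.2.1⟩
  have h5 := (Set.ncard_le_ncard h4 ((hfin _).union (hfin _))).trans (Set.ncard_union_le _ _)
  exact_mod_cast h5

theorem w_nonneg (hid : Spread (fun n => (n : ℤ))) : AlmostAll (fun n => 0 ≤ W n) := by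
  have h := Pool.Agent.Results.MP_005f52_nt.SparseSequences.almost_large
    (Pool.Agent.Y967.CM.L.kap_tendsto.eventually_ge_atTop 0)
  exact h

theorem close {z y : ℤ} {R : ℝ} (h : |(z : ℝ) - y| ≤ R - 1) :
    |((z - Pool.Agent.U307.LR.oddOf y : ℤ) : ℝ)| ≤ R := by
  have h1 := Pool.Agent.U307.LR.oddOf_close y
  have h2 : ((z - Pool.Agent.U307.LR.oddOf y : ℤ) : ℝ) = ((z : ℝ) - y) - ((Pool.Agent.U307.LR.oddOf y : ℝ) - y) := by
    push_cast; ring
  rw [h2]
  refine (abs_sub _ _).trans ?_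
  linarith

/-- (1) Every linear recurrence with odd last coefficient is smooth, and so is every Newton series
`∑ c_j n (n - 1) ... (n - j + 1)` with integers `c_j`; sums and products of smooth sequences are smooth.
(2) A smooth sequence `u` is spread if and only if it is constant on no arithmetic progression, and then
`u (e n)` is spread for every spread sequence `e` of natural numbers.
Let the sequence of integers `x` (positive or negative) be smooth and constant on no arithmetic
progression, and let the sequence of natural numbers `e` be spread, for example that of the primes.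
(3) Let `κ > 0`. For almost all `n` there are a number `s` and an integer `w` such that `Syr^b z = w` for some
`b ≤ κ log n`, for every odd integer `z` with `|z - x (e n)| ≤ exp (W n) - 1`, and `b` is the same for all
these `z`. (4) Let `F` be a finite closed set, for example one of the three known cycles. For almost all `n`
the number of steps after which the Syracuse orbit of `z` enters `F` (if it does) is the same for all odd
integers `z` with `|z - x (e n)| ≤ exp (W n) - 1`.
(5) Let `x` be natural-valued and `a ≥ 1`. For almost all `n`, with `m = x (e n)`, the numbers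
`-(2 ^ (m + j) a + 1)`, `j ≤ W n`, all enter `F` after the same number of steps, or none of them does.
(6) The Fibonacci numbers are smooth and constant on no arithmetic progression. -/
theorem result :
    ((∀ u : ℕ → ℤ, OddRec u → Smooth u) ∧
      (∀ c : ℕ → ℤ, Smooth (fun n => ∑ j ∈ Finset.range (n + 1), c j * (n.descFactorial j : ℤ))) ∧
      (∀ u v : ℕ → ℤ, Smooth u → Smooth v → Smooth (fun n => u n + v n) ∧ Smooth (fun n => u n * v n))) ∧
    (∀ u : ℕ → ℤ, Smooth u → (Spread u ↔ NoConst u) ∧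
      ∀ e : ℕ → ℕ, NoConst u → Spread (fun n => (e n : ℤ)) → Spread (fun n => u (e n))) ∧
    (∀ (x : ℕ → ℤ) (e : ℕ → ℕ), Smooth x → NoConst x → Spread (fun n => (e n : ℤ)) →
      (∀ κ : ℝ, 0 < κ → AlmostAll (fun n => ∃ (b : ℕ) (w : ℤ), (b : ℝ) ≤ κ * Real.log n ∧
        ∀ z : ℤ, Odd z → |(z : ℝ) - x (e n)| ≤ Real.exp (W n) - 1 → Syr^[b] z = w)) ∧
      (∀ F : Finset ℤ, Closed F → AlmostAll (fun n => ∀ (z z' : ℤ) (J : ℕ), Odd z → Odd z' →
        |(z : ℝ) - x (e n)| ≤ Real.exp (W n) - 1 → |(z' : ℝ) - x (e n)| ≤ Real.exp (W n) - 1 →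
        (Enters F J z ↔ Enters F J z')))) ∧
    (∀ (x e : ℕ → ℕ), Smooth (fun n => (x n : ℤ)) → NoConst (fun n => (x n : ℤ)) →
      Spread (fun n => (e n : ℤ)) → ∀ (a : ℕ) (F : Finset ℤ), 1 ≤ a → Closed F →
      AlmostAll (fun n => 1 ≤ x (e n) → ∀ i j J : ℕ, (i : ℝ) ≤ W n → (j : ℝ) ≤ W n →
        (Enters F J (-(2 ^ (x (e n) + i) * (a : ℤ) + 1)) ↔ Enters F J (-(2 ^ (x (e n) + j) * (a : ℤ) + 1))))) ∧
    (Smooth (fun n => (Nat.fib n : ℤ)) ∧ NoConst (fun n => (Nat.fib n : ℤ)) ∧
      Spread (fun n => (n : ℤ)) ∧ Spread (fun n => ((Nat.nth Nat.Prime n : ℕ) : ℤ))) := by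
  obtain ⟨⟨hid, hpr, -, -⟩, hH1, hH2, -, hH4⟩ := Pool.Agent.Results.MP_005f52_nt.SparseSequences.result
  have hcomp : ∀ u : ℕ → ℤ, Smooth u → ∀ e : ℕ → ℕ, NoConst u → Spread (fun n => (e n : ℤ)) →
      Spread (fun n => u (e n)) := fun u hu e hne he =>
    (sp_iff _).2 (Pool.Agent.U307.LR.Smooth.comp hu hne ((sp_iff _).1 he))
  refine ⟨⟨fun u hu => Pool.Agent.U307.LR.OddRec.smooth hu, fun c => Pool.Agent.U307.LR.newton_smooth c,
    fun u v hu hv => ⟨Pool.Agent.U307.LR.Smooth.add hu hv, Pool.Agent.U307.LR.Smooth.mul hu hv⟩⟩,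
    fun u hu => ⟨(sp_iff u).trans (Pool.Agent.U307.LR.Smooth.spread_iff hu), fun e hne he => hcomp u hu e hne he⟩,
    fun x e hx hne he => ⟨fun κ hκ => ?_, fun F hF => ?_⟩, fun x e hx hne he a F ha hF => ?_, Pool.Agent.U307.LR.fib_odd.smooth, Pool.Agent.U307.LR.fib_noConst, hid, hpr⟩
  · -- the merging
    have hs : Spread (fun n => Pool.Agent.U307.LR.oddOf (x (e n))) :=
      (sp_iff _).2 (Pool.Agent.U307.LR.spread_oddOf ((sp_iff _).1 (hcomp x hx e hne he)))
    refine AlmostAll.mono (AlmostAll.and (w_nonneg hid) (hH1 _ κ hs (fun n => Pool.Agent.U307.LR.oddOf_odd _) hκ)) ?_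
    rintro n ⟨hw, B, hB, hn⟩
    refine ⟨B, Syr^[B] (Pool.Agent.U307.LR.oddOf (x (e n))), hB, fun z hz hzx => ?_⟩
    obtain ⟨A, hA, hA2⟩ := hn z 0 0 (z - Pool.Agent.U307.LR.oddOf (x (e n))) hz (by push_cast; exact hw)
      (close hzx) (by rw [Function.iterate_zero, id_eq]; ring)
    have h0 : Pool.Agent.Results.MP_005f52_nt.SparseSequences.odds 0 z = 0 := rfl
    rw [h0, Nat.add_zero, Nat.zero_add] at hA
    rw [hA] at hA2
    exact hA2
  · have hs : Spread (fun n => Pool.Agent.U307.LR.oddOf (x (e n))) :=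
      (sp_iff _).2 (Pool.Agent.U307.LR.spread_oddOf ((sp_iff _).1 (hcomp x hx e hne he)))
    refine AlmostAll.mono (AlmostAll.and (w_nonneg hid) (hH2 _ F hs (fun n => Pool.Agent.U307.LR.oddOf_odd _) hF)) ?_
    rintro n ⟨hw, hn⟩ z z' J hz hz' hd hd'
    have key : ∀ z : ℤ, Odd z → |(z : ℝ) - x (e n)| ≤ Real.exp (W n) - 1 →
        (Enters F J z ↔ Enters F J (Pool.Agent.U307.LR.oddOf (x (e n)))) := by
      intro z hz hzx
      obtain ⟨g1, g2⟩ := hn z 0 0 (z - Pool.Agent.U307.LR.oddOf (x (e n))) hz (by push_cast; exact hw)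
        (close hzx) (by rw [Function.iterate_zero, id_eq]; ring)
      have h0 : Pool.Agent.Results.MP_005f52_nt.SparseSequences.odds 0 z = 0 := rfl
      rw [h0] at g2
      constructor
      · intro h
        obtain ⟨J', hJ'⟩ := g1.1 ⟨J, h⟩
        have := g2 J J' h hJ'
        have e1 : J = J' := by omega
        rw [e1]; exact hJ'
      · intro h
        obtain ⟨J', hJ'⟩ := g1.2 ⟨J, h⟩
        have := g2 J' J hJ' h
        have e1 : J = J' := by omega
        rw [e1]; exact hJ'
    exact (key z hz hd).trans (key z' hz' hd').symm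
  · refine AlmostAll.mono (hH4 a (fun n => x (e n)) F ha (hcomp _ hx e hne he) hF) ?_
    intro n hn hm i j J hi hj
    exact (hn (x (e n)) i J rfl hm hi).trans (hn (x (e n)) j J rfl hm hj).symm

end Pool.Agent.Results.MP_005f52_nt.LinearRecurrences
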