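import Pool.Agent.U596.TP13
import Pool.Agent.W26.HN.D

set_option autoImplicit false

/-! Products of primes in the basins of the cycles of the Syracuse map on the negative odd integers:
a counting lemma for products along a family of sets (for example the edges of a graph), uniform in
all data. -/

namespace Pool.Agent.Results.MP_005f52_nt.ProductPatterns

open Filter Topology

/-- The Syracuse map. -/
def Syr (N : ℤ) : ℤ := (3 * N + 1) / 2 ^ padicValInt 2 (3 * N + 1)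

/-- `S` contains the negative odd integer `N` iff it contains `Syr N`. -/
def Closed (S : Set ℤ) : Prop := ∀ N : ℤ, N < 0 → Odd N → (N ∈ S ↔ Syr N ∈ S)

/-- `S` contains a negative odd integer. -/
def Occurs (S : Set ℤ) : Prop := ∃ N : ℤ, N < 0 ∧ Odd N ∧ N ∈ S

/-- Among the negative odd integers, those in `S` have natural density `δ`:
`2 / X` times the number of negative odd `N ≥ -X` in `S` tends to `δ`. -/
def HasDensity (S : Set ℤ) (δ : ℝ) : Prop :=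
  Tendsto (fun X : ℕ => 2 / (X : ℝ) * ({N : ℤ | -(X : ℤ) ≤ N ∧ N < 0 ∧ Odd N ∧ N ∈ S}.ncard : ℝ))
    atTop (𝓝 δ)

/-- the three known cycles -/
def C₁ : Finset ℤ := {-1}

/-- the three known cycles -/
def C₂ : Finset ℤ := {-5, -7}

/-- the three known cycles -/
def C₃ : Finset ℤ := {-17, -25, -37, -55, -41, -61, -91}

/-- the `N` whose orbit enters `Z` -/
def Basin (Z : Finset ℤ) : Set ℤ := {N : ℤ | ∃ m : ℕ, Syr^[m] N ∈ Z}

/-- the primes `p` with `M ≤ p < 2 M` -/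
def primesIn (M : ℕ) : Finset ℕ := (Finset.Ico M (2 * M)).filter Nat.Prime

/-- the negative integer `- c e * ∏_{r ∈ e} x r` -/
def value {k : ℕ} (c : Finset (Fin k) → ℕ) (e : Finset (Fin k)) (x : Fin k → ℕ) : ℤ :=
  -((c e * ∏ r ∈ e, x r : ℕ) : ℤ)

/-- The condition on the family `E` of sets of indices and on the scales `M`: every nonempty
subfamily `F` has a member `e` with two indices `i ≠ j` such that no other member of `F` contains
both, `M j ^ θ ≤ M i`, and `M r ≤ M j ^ ϑ` for all the other indices `r` in `e`, `c e ≤ M j ^ ϑ` and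
`c e` is odd. -/
def Admissible {k : ℕ} (θ ϑ : ℝ) (M : Fin k → ℕ) (c : Finset (Fin k) → ℕ) (E : Finset (Finset (Fin k))) :
    Prop :=
  ∀ F ⊆ E, F.Nonempty → ∃ e ∈ F, ∃ i ∈ e, ∃ j ∈ e, i ≠ j ∧ (∀ e' ∈ F, e' ≠ e → i ∈ e' → j ∉ e') ∧
    (M j : ℝ) ^ θ ≤ M i ∧ (∀ r ∈ e, r ≠ j → (M r : ℝ) ≤ (M j : ℝ) ^ ϑ) ∧ (c e : ℝ) ≤ (M j : ℝ) ^ ϑ ∧
    c e % 2 = 1

/-- Every nonempty subfamily `F` of `E` has a member `e` with an index `i` smaller than the largest
index `j` of `e` such that no other member of `F` contains both `i` and `j`. This holds for the edges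
of every graph on `Fin k`, and for the sets `{0, …, r}`, `1 ≤ r < k`. -/
def Tame {k : ℕ} (E : Finset (Finset (Fin k))) : Prop :=
  ∀ F ⊆ E, F.Nonempty → ∃ e ∈ F, ∃ i ∈ e, ∃ j ∈ e, i < j ∧ (∀ r ∈ e, r ≤ j) ∧
    ∀ e' ∈ F, e' ≠ e → i ∈ e' → j ∉ e'

open Pool.Agent.W26.HN Pool.Agent.H499R2.ND in
theorem density_of {S : Set ℤ} {δ : ℝ} (h : Dn (fun n : ℕ => n % 2 = 1 ∧ -(n : ℤ) ∈ S) (δ / 2)) :
    HasDensity S δ := by
  unfold HasDensity
  have h1 := h.const_mul 2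
  rw [mul_div_cancel₀ δ (by norm_num : (2 : ℝ) ≠ 0)] at h1
  refine h1.congr fun X => ?_
  have e : {N : ℤ | -(X : ℤ) ≤ N ∧ N < 0 ∧ Odd N ∧ N ∈ S}
      = (fun n : ℕ => -(n : ℤ)) '' {n : ℕ | 1 ≤ n ∧ n ≤ X ∧ n % 2 = 1 ∧ -(n : ℤ) ∈ S} := by
    ext N
    constructor
    · rintro ⟨g1, g2, g3, g4⟩
      have g3' := Int.odd_iff.1 g3
      refine ⟨N.natAbs, ⟨by omega, by omega, by omega, ?_⟩, ?_⟩
      · have : -((N.natAbs : ℕ) : ℤ) = N := by omega
        rw [this]; exact g4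
      · show -((N.natAbs : ℕ) : ℤ) = N
        omega
    · rintro ⟨n, ⟨g1, g2, g3, g4⟩, rfl⟩
      refine ⟨?_, ?_, ?_, g4⟩
      · show -(X : ℤ) ≤ -(n : ℤ)
        omega
      · show -(n : ℤ) < 0
        omega
      · rw [Int.odd_iff]
        show -(n : ℤ) % 2 = 1
        omega
  rw [e, Set.ncard_image_of_injective _ (fun a b hab => by
    have : -(a : ℤ) = -(b : ℤ) := hab
    omega)]
  unfold cnt
  ring

theorem closed_conv {S : Set ℤ} (hS : Closed S) :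
    ∀ N : ℤ, N < 0 → N % 2 = 1 → (N ∈ S ↔ Pool.Agent.W26.HN.Sy N ∈ S) :=
  fun N hN hodd => hS N hN (Int.odd_iff.2 hodd)

theorem closed_dens {S : Set ℤ} (hS : Closed S) : ∃ d : ℝ, 0 ≤ d ∧ d ≤ 1 ∧
    Pool.Agent.H499R2.ND.HD (-1) (Pool.Agent.W26.HN.Lift S) d ∧ HasDensity S d ∧ (Occurs S → 0 < d) := by
  obtain ⟨d, h0, h1, h2, h3, h4, h5⟩ := Pool.Agent.W26.HN.inv_density (closed_conv hS)
  refine ⟨d, h0, h1, h2, density_of h3, ?_⟩
  rintro ⟨N, hN, hodd, hNS⟩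
  rcases h0.lt_or_eq with h | h
  · exact h
  · exact absurd hNS (h4.1 h.symm N hN (Int.odd_iff.1 hodd))

theorem HD_of {S : Set ℤ} (hS : Closed S) {δ : ℝ} (hδ : HasDensity S δ) :
    Pool.Agent.H499R2.ND.HD (-1) (Pool.Agent.W26.HN.Lift S) δ := by
  obtain ⟨d, _, _, h2, h3, _⟩ := closed_dens hS
  have := tendsto_nhds_unique h3 hδ
  rw [← this]; exact h2

/-- PART 1: the counting lemma. -/
theorem part1 (k : ℕ) : ∀ ε : ℝ, 0 < ε → ∃ ϑ : ℝ, 0 < ϑ ∧ ϑ < 1 ∧ ∀ θ : ℝ, 0 < θ → ∃ N₀ : ℕ, 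
    ∀ M : Fin k → ℕ, (∀ i, N₀ ≤ M i) → ∀ (c : Finset (Fin k) → ℕ) (E : Finset (Finset (Fin k))),
    Admissible θ ϑ M c E → ∀ A : Fin k → Finset ℕ, (∀ i, A i ⊆ primesIn (M i)) →
    ∀ (S : Finset (Fin k) → Set ℤ) (δ : Finset (Fin k) → ℝ),
    (∀ e ∈ E, Closed (S e) ∧ HasDensity (S e) (δ e)) →
    |(({x : Fin k → ℕ | (∀ i, x i ∈ A i) ∧ ∀ e ∈ E, value c e x ∈ S e}.ncard : ℕ) : ℝ)
        - (∏ e ∈ E, δ e) * ∏ i, ((A i).card : ℝ)| ≤ ε * ∏ i, ((primesIn (M i)).card : ℝ) := by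
  classical
  intro ε hε
  obtain ⟨ϑ, hϑ0, hϑ1, h1⟩ := Pool.Agent.U596.TP.counting (s := -1) (Or.inr rfl) (Fin k) ε hε
  refine ⟨ϑ, hϑ0, by linarith, fun θ hθ => ?_⟩
  obtain ⟨N0, hN0, h2⟩ := h1 θ hθ
  refine ⟨N0, fun M hM c E hE A hA S δ hS => ?_⟩
  obtain ⟨S', hS'⟩ : ∃ S' : Finset (Fin k) → Set ℤ, S' = fun e => if e ∈ E then Pool.Agent.W26.HN.Lift (S e) else ∅ := ⟨_, rfl⟩
  obtain ⟨δ', hδ'⟩ : ∃ δ' : Finset (Fin k) → ℝ, δ' = fun e => if e ∈ E then δ e else 0 := ⟨_, rfl⟩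
  have hinv : ∀ e, Pool.Agent.H499R2.ND.Inv 1 (S' e) := by
    intro e
    rw [hS']
    simp only
    split_ifs with he
    · exact Pool.Agent.W26.HN.lift_inv (closed_conv (hS e he).1)
    · intro x; simp
  have hHD : ∀ e, Pool.Agent.H499R2.ND.HD (-1) (S' e) (δ' e) := by
    intro e
    rw [hS', hδ']
    simp only
    split_ifs with he
    · exact HD_of (hS e he).1 (hS e he).2
    · have hcl : Closed (∅ : Set ℤ) := fun N _ _ => by simp
      have e1 : Pool.Agent.W26.HN.Lift (∅ : Set ℤ) = ∅ := by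
        unfold Pool.Agent.W26.HN.Lift
        ext x; simp
      have h3 := HD_of hcl (δ := 0) (by
        unfold HasDensity
        simp only [Set.mem_empty_iff_false, and_false, Set.setOf_false, Set.ncard_empty, Nat.cast_zero, mul_zero]
        exact tendsto_const_nhds)
      rw [e1] at h3
      exact h3
  have h3 := h2 M hM c E hE A hA S' δ' hinv hHD
  have h4 : ∏ e ∈ E, δ' e = ∏ e ∈ E, δ e := by
    apply Finset.prod_congr rfl
    intro e he
    rw [hδ']; simp only [if_pos he]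
  rw [h4] at h3
  have hco : ∀ e ∈ E, c e % 2 = 1 := by
    intro e he
    obtain ⟨e', he', _, _, _, _, _, _, _, _, _, h5⟩ := hE {e} (by simpa using he) (Finset.singleton_nonempty e)
    rw [Finset.mem_singleton] at he'
    rw [← he']; exact h5
  have h5 : (({x : Fin k → ℕ | (∀ i, x i ∈ A i) ∧ ∀ e ∈ E, value c e x ∈ S e}.ncard : ℕ) : ℝ)
      = ∑ x ∈ Fintype.piFinset A, ∏ e ∈ E, Pool.Agent.W41.ind (-1) (S' e) ((Pool.Agent.U596.TP.pv c e x : ℕ) : ℤ) := by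
    have h6 : {x : Fin k → ℕ | (∀ i, x i ∈ A i) ∧ ∀ e ∈ E, value c e x ∈ S e}
        = (((Fintype.piFinset A).filter (fun x => ∀ e ∈ E, value c e x ∈ S e) : Finset (Fin k → ℕ)) : Set (Fin k → ℕ)) := by
      ext x
      simp [Fintype.mem_piFinset]
    rw [h6, Set.ncard_coe_finset, Finset.card_filter]
    push_cast
    apply Finset.sum_congr rfl
    intro x hx
    rw [Fintype.mem_piFinset] at hx
    have hind : ∀ e ∈ E, Pool.Agent.W41.ind (-1) (S' e) ((Pool.Agent.U596.TP.pv c e x : ℕ) : ℤ)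
        = if value c e x ∈ S e then 1 else 0 := by
      intro e he
      have hodd : (value c e x) % 2 = 1 := by
        have h7 : Odd (c e * ∏ r ∈ e, x r) := by
          apply Odd.mul (Nat.odd_iff.2 (hco e he))
          apply Finset.prod_induction x Odd (fun _ _ => Odd.mul) odd_one
          intro r _
          have h8 := Pool.Agent.U596.TP.mem_Pr.1 (hA r (hx r))
          rcases h8.2.2.eq_two_or_odd' with h9 | h9
          · have := hM r; omega
          · exact h9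
        have h8 := Nat.odd_iff.1 h7
        unfold value
        omega
      have hneg : value c e x < 0 := by
        unfold value at hodd ⊢
        have : 0 ≤ ((c e * ∏ r ∈ e, x r : ℕ) : ℤ) := Nat.cast_nonneg _
        omega
      have h7 : ((-1 : ℤ) * ((Pool.Agent.U596.TP.pv c e x : ℕ) : ℤ) ∈ S' e) ↔ value c e x ∈ S e := by
        rw [hS']
        simp only [if_pos he]
        have h8 : (-1 : ℤ) * ((Pool.Agent.U596.TP.pv c e x : ℕ) : ℤ) = value c e x := by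
          unfold value Pool.Agent.U596.TP.pv; ring
        rw [h8]
        exact Pool.Agent.W26.HN.lift_odd hodd hneg
      unfold Pool.Agent.W41.ind
      by_cases h8 : value c e x ∈ S e
      · rw [if_pos h8, if_pos (h7.2 h8)]
      · rw [if_neg h8, if_neg (fun h9 => h8 (h7.1 h9))]
    rw [Finset.prod_congr rfl hind]
    by_cases hall : ∀ e ∈ E, value c e x ∈ S e
    · rw [if_pos hall]
      symm
      apply Finset.prod_eq_one
      intro e he
      rw [if_pos (hall e he)]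
    · rw [if_neg hall]
      push Not at hall
      obtain ⟨e, he, hne⟩ := hall
      symm
      apply Finset.prod_eq_zero he
      rw [if_neg hne]
  rw [h5]
  exact h3

/-- tame families are admissible for suitable scales -/
theorem adm_of_tame {k : ℕ} {ϑ : ℝ} (hϑ : 0 < ϑ) : ∃ R₀ : ℕ, 2 ≤ R₀ ∧ ∀ R : ℕ, R₀ ≤ R →
    ∃ θ : ℝ, 0 < θ ∧ ∀ N : ℕ, 1 ≤ N → ∀ E : Finset (Finset (Fin k)), Tame E →
    Admissible θ ϑ (fun i => N ^ R ^ (i : ℕ)) (fun _ => 1) E := by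
  obtain ⟨R0, hR0⟩ : ∃ R0 : ℕ, R0 = ⌈1 / ϑ⌉₊ + 2 := ⟨_, rfl⟩
  refine ⟨R0, by omega, fun R hR => ?_⟩
  have hRϑ : 1 ≤ ϑ * R := by
    have h1 : 1 / ϑ ≤ R := (Nat.le_ceil _).trans (by exact_mod_cast (by omega : ⌈1 / ϑ⌉₊ ≤ R))
    rw [div_le_iff₀ hϑ] at h1
    linarith
  have hR1 : (1 : ℝ) ≤ R := by exact_mod_cast (by omega : 1 ≤ R)
  have hR0' : (0 : ℝ) < R := by linarith
  refine ⟨1 / (R : ℝ) ^ k, by positivity, fun N hN E hE F hF hFn => ?_⟩
  obtain ⟨e, he, i, hi, j, hj, hij, hmax, hpriv⟩ := hE F hF hFn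
  have hN1 : (1 : ℝ) ≤ N := by exact_mod_cast hN
  have hN0 : (0 : ℝ) < N := by linarith
  have hpow : ∀ (r : Fin k) (t : ℝ), (((N ^ R ^ (r : ℕ) : ℕ) : ℝ)) ^ t = (N : ℝ) ^ ((R : ℝ) ^ (r : ℕ) * t) := by
    intro r t
    rw [Real.rpow_mul hN0.le]
    congr 1
    have : (R : ℝ) ^ (r : ℕ) = ((R ^ (r : ℕ) : ℕ) : ℝ) := by push_cast; rfl
    rw [this, Real.rpow_natCast]
    push_cast; rfl
  have hpow1 : ∀ (r : Fin k), ((N ^ R ^ (r : ℕ) : ℕ) : ℝ) = (N : ℝ) ^ ((R : ℝ) ^ (r : ℕ)) := by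
    intro r
    have := hpow r 1
    rw [Real.rpow_one, mul_one] at this
    exact this
  refine ⟨e, he, i, hi, j, hj, hij.ne, hpriv, ?_, ?_, ?_, rfl⟩
  · simp only
    rw [hpow, hpow1]
    apply Real.rpow_le_rpow_of_exponent_le hN1
    have h1 : (R : ℝ) ^ (j : ℕ) ≤ (R : ℝ) ^ k := pow_le_pow_right₀ hR1 j.2.le
    have h2 : (1 : ℝ) ≤ (R : ℝ) ^ (i : ℕ) := one_le_pow₀ hR1
    rw [mul_one_div, div_le_iff₀ (by positivity)]
    nlinarith only [h1, h2, pow_pos hR0' k]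
  · intro r hr hrj
    have h1 : r < j := lt_of_le_of_ne (hmax r hr) hrj
    simp only
    rw [hpow, hpow1]
    apply Real.rpow_le_rpow_of_exponent_le hN1
    have h2 : (R : ℝ) ^ ((r : ℕ) + 1) ≤ (R : ℝ) ^ (j : ℕ) := pow_le_pow_right₀ hR1 (by
      have : (r : ℕ) < j := h1
      omega)
    have h3 : (0 : ℝ) < (R : ℝ) ^ (r : ℕ) := by positivity
    rw [pow_succ] at h2
    calc (R : ℝ) ^ (r : ℕ) = (R : ℝ) ^ (r : ℕ) * 1 := by ring
      _ ≤ (R : ℝ) ^ (r : ℕ) * (ϑ * R) := mul_le_mul_of_nonneg_left hRϑ h3.le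
      _ = ((R : ℝ) ^ (r : ℕ) * R) * ϑ := by ring
      _ ≤ (R : ℝ) ^ (j : ℕ) * ϑ := mul_le_mul_of_nonneg_right h2 hϑ.le
  · simp only [Nat.cast_one]
    rw [hpow]
    exact Real.one_le_rpow hN1 (by positivity)

/-- PART 2: tame families. -/
theorem part2 (k : ℕ) : ∀ ε : ℝ, 0 < ε → ∃ R₀ : ℕ, 2 ≤ R₀ ∧ ∀ R : ℕ, R₀ ≤ R → ∃ N₀ : ℕ, ∀ N : ℕ, N₀ ≤ N →
    ∀ E : Finset (Finset (Fin k)), Tame E → ∀ (S : Finset (Fin k) → Set ℤ) (δ : Finset (Fin k) → ℝ),
    (∀ e ∈ E, Closed (S e) ∧ HasDensity (S e) (δ e)) →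
    |(({x : Fin k → ℕ | (∀ i : Fin k, x i ∈ primesIn (N ^ R ^ (i : ℕ))) ∧
          ∀ e ∈ E, -((∏ r ∈ e, x r : ℕ) : ℤ) ∈ S e}.ncard : ℕ) : ℝ)
        - (∏ e ∈ E, δ e) * ∏ i : Fin k, ((primesIn (N ^ R ^ (i : ℕ))).card : ℝ)|
      ≤ ε * ∏ i : Fin k, ((primesIn (N ^ R ^ (i : ℕ))).card : ℝ) := by
  intro ε hε
  obtain ⟨ϑ, hϑ0, _, h1⟩ := part1 k ε hε
  obtain ⟨R₀, hR₀, h2⟩ := adm_of_tame (k := k) hϑ0
  refine ⟨R₀, hR₀, fun R hR => ?_⟩
  obtain ⟨θ, hθ, h3⟩ := h2 R hR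
  obtain ⟨N₀, h4⟩ := h1 θ hθ
  refine ⟨N₀ + 1, fun N hN E hE S δ hS => ?_⟩
  have h5 := h4 (fun i => N ^ R ^ (i : ℕ)) (fun i => by
    have h6 : N ^ 1 ≤ N ^ R ^ (i : ℕ) := Nat.pow_le_pow_right (by omega) (Nat.one_le_pow _ _ (by omega))
    rw [pow_one] at h6
    omega) (fun _ => 1) E (h3 N (by omega) E hE) (fun i => primesIn (N ^ R ^ (i : ℕ))) (fun i => Finset.Subset.refl _) S δ hS
  have h6 : {x : Fin k → ℕ | (∀ i : Fin k, x i ∈ primesIn (N ^ R ^ (i : ℕ))) ∧ ∀ e ∈ E, -((∏ r ∈ e, x r : ℕ) : ℤ) ∈ S e}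
      = {x : Fin k → ℕ | (∀ i : Fin k, x i ∈ primesIn (N ^ R ^ (i : ℕ))) ∧ ∀ e ∈ E, value (fun _ => 1) e x ∈ S e} := by
    ext x
    unfold value
    simp only [one_mul]
  rw [h6]
  exact h5

/-- PART 3: existence. -/
theorem part3 (k : ℕ) (E : Finset (Finset (Fin k))) (hE : Tame E) (S : Finset (Fin k) → Set ℤ)
    (hS : ∀ e ∈ E, Closed (S e) ∧ Occurs (S e)) (L : ℕ) :
    ∃ p : Fin k → ℕ, StrictMono p ∧ (∀ i, (p i).Prime ∧ L < p i) ∧
      ∀ e ∈ E, -((∏ r ∈ e, p r : ℕ) : ℤ) ∈ S e := by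
  classical
  have hd : ∀ e : Finset (Fin k), ∃ d : ℝ, e ∈ E → 0 < d ∧ HasDensity (S e) d := by
    intro e
    by_cases he : e ∈ E
    · obtain ⟨d, _, _, _, h1, h2⟩ := closed_dens (hS e he).1
      exact ⟨d, fun _ => ⟨h2 (hS e he).2, h1⟩⟩
    · exact ⟨0, fun h => absurd h he⟩
  choose δ hδ using hd
  have hpos : 0 < ∏ e ∈ E, δ e := Finset.prod_pos fun e he => (hδ e he).1
  obtain ⟨R₀, hR₀, h1⟩ := part2 k ((∏ e ∈ E, δ e) / 2) (by linarith)
  obtain ⟨N₀, h2⟩ := h1 R₀ le_rfl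
  obtain ⟨N, hN⟩ : ∃ N : ℕ, N = N₀ + L + 10 := ⟨_, rfl⟩
  have h3 := h2 N (by omega) E hE S δ (fun e he => ⟨(hS e he).1, (hδ e he).2⟩)
  have hT : 0 < ∏ i : Fin k, ((primesIn (N ^ R₀ ^ (i : ℕ))).card : ℝ) := by
    apply Finset.prod_pos
    intro i _
    have h4 : 0 < (primesIn (N ^ R₀ ^ (i : ℕ))).card := by
      rw [Finset.card_pos]
      obtain ⟨p, hp1, hp2, hp3⟩ := Nat.exists_prime_lt_and_le_two_mul (N ^ R₀ ^ (i : ℕ) - 1 + 1 - 1) (by
        have : N ^ 1 ≤ N ^ R₀ ^ (i : ℕ) := Nat.pow_le_pow_right (by omega) (Nat.one_le_pow _ _ (by omega))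
        rw [pow_one] at this
        omega)
      refine ⟨p, ?_⟩
      unfold primesIn
      rw [Finset.mem_filter, Finset.mem_Ico]
      refine ⟨⟨?_, ?_⟩, hp1⟩ <;> omega
    exact_mod_cast h4
  have h4 : 0 < (({x : Fin k → ℕ | (∀ i : Fin k, x i ∈ primesIn (N ^ R₀ ^ (i : ℕ))) ∧
          ∀ e ∈ E, -((∏ r ∈ e, x r : ℕ) : ℤ) ∈ S e}.ncard : ℕ) : ℝ) := by
    rw [abs_le] at h3
    have := mul_pos hpos hT
    linarith [h3.1]
  have h5 : {x : Fin k → ℕ | (∀ i : Fin k, x i ∈ primesIn (N ^ R₀ ^ (i : ℕ))) ∧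
          ∀ e ∈ E, -((∏ r ∈ e, x r : ℕ) : ℤ) ∈ S e}.Nonempty := by
    apply Set.nonempty_of_ncard_ne_zero
    intro h6
    rw [h6] at h4
    simp at h4
  obtain ⟨p, hp1, hp2⟩ := h5
  have hmem : ∀ i : Fin k, N ^ R₀ ^ (i : ℕ) ≤ p i ∧ p i < 2 * N ^ R₀ ^ (i : ℕ) ∧ (p i).Prime := fun i =>
    Pool.Agent.U596.TP.mem_Pr.1 (hp1 i)
  refine ⟨p, ?_, fun i => ⟨(hmem i).2.2, ?_⟩, hp2⟩
  · intro i j hij
    have h6 : (i : ℕ) < j := hij
    have h7 : R₀ ^ (i : ℕ) + 1 ≤ R₀ ^ (j : ℕ) := Nat.pow_lt_pow_right (by omega) h6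
    have h8 : N ^ (R₀ ^ (i : ℕ) + 1) ≤ N ^ R₀ ^ (j : ℕ) := Nat.pow_le_pow_right (by omega) h7
    rw [pow_succ] at h8
    have h9 : 2 * N ^ R₀ ^ (i : ℕ) ≤ N ^ R₀ ^ (i : ℕ) * N := by
      rw [mul_comm]
      exact Nat.mul_le_mul_left _ (by omega)
    have := (hmem i).2.1
    have := (hmem j).1
    omega
  · have h6 : N ^ 1 ≤ N ^ R₀ ^ (i : ℕ) := Nat.pow_le_pow_right (by omega) (Nat.one_le_pow _ _ (by omega))
    rw [pow_one] at h6
    have := (hmem i).1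
    omega

/-- the pairs form a tame family -/
theorem tame_pairs (k : ℕ) : Tame ((Finset.univ : Finset (Finset (Fin k))).filter fun e => e.card = 2) := by
  intro F hF hFn
  obtain ⟨e, he⟩ := hFn
  have h1 := hF he
  rw [Finset.mem_filter, Finset.card_eq_two] at h1
  obtain ⟨_, a, b, hab, hE⟩ := h1
  have key : ∀ a b : Fin k, a < b → e = {a, b} → ∃ e ∈ F, ∃ i ∈ e, ∃ j ∈ e, i < j ∧ (∀ r ∈ e, r ≤ j) ∧
      ∀ e' ∈ F, e' ≠ e → i ∈ e' → j ∉ e' := by
    intro a b hab hE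
    refine ⟨e, he, a, by rw [hE]; simp, b, by rw [hE]; simp, hab, ?_, ?_⟩
    · intro r hr
      rw [hE, Finset.mem_insert, Finset.mem_singleton] at hr
      rcases hr with rfl | rfl
      · exact hab.le
      · exact le_rfl
    · intro e' he' hne ha hb
      apply hne
      have h2 := hF he'
      rw [Finset.mem_filter] at h2
      have h3 : ({a, b} : Finset (Fin k)) ⊆ e' := by
        intro r hr
        rw [Finset.mem_insert, Finset.mem_singleton] at hr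
        rcases hr with rfl | rfl
        · exact ha
        · exact hb
      rw [hE]
      exact (Finset.eq_of_subset_of_card_le h3 (by rw [h2.2, Finset.card_pair hab.ne])).symm
  rcases lt_or_gt_of_ne hab with h | h
  · exact key a b h hE
  · exact key b a h (by rw [hE, Finset.pair_comm])

/-- PART 4: graphs. -/
theorem part4 (k : ℕ) (S : Fin k → Fin k → Set ℤ) (hS : ∀ i j, i < j → Closed (S i j) ∧ Occurs (S i j)) (L : ℕ) :
    ∃ p : Fin k → ℕ, StrictMono p ∧ (∀ i, (p i).Prime ∧ L < p i) ∧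
      ∀ i j, i < j → -((p i : ℤ) * p j) ∈ S i j := by
  classical
  obtain ⟨S', hS'⟩ : ∃ S' : Finset (Fin k) → Set ℤ, S' = fun e => if h : e.Nonempty then S (e.min' h) (e.max' h) else ∅ := ⟨_, rfl⟩
  have hval : ∀ i j : Fin k, i < j → S' {i, j} = S i j := by
    intro i j hij
    have hne : ({i, j} : Finset (Fin k)).Nonempty := Finset.insert_nonempty _ _
    rw [hS']
    simp only [dif_pos hne]
    have h1 : ({i, j} : Finset (Fin k)).min' hne = i := by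
      apply le_antisymm
      · exact Finset.min'_le _ _ (by simp)
      · apply Finset.le_min'
        intro y hy
        rw [Finset.mem_insert, Finset.mem_singleton] at hy
        rcases hy with rfl | rfl
        · exact le_rfl
        · exact hij.le
    have h2 : ({i, j} : Finset (Fin k)).max' hne = j := by
      apply le_antisymm
      · apply Finset.max'_le
        intro y hy
        rw [Finset.mem_insert, Finset.mem_singleton] at hy
        rcases hy with rfl | rfl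
        · exact hij.le
        · exact le_rfl
      · exact Finset.le_max' _ _ (by simp)
    rw [h1, h2]
  obtain ⟨p, hp1, hp2, hp3⟩ := part3 k _ (tame_pairs k) S' (by
    intro e he
    rw [Finset.mem_filter, Finset.card_eq_two] at he
    obtain ⟨_, a, b, hab, rfl⟩ := he
    rcases lt_or_gt_of_ne hab with h | h
    · rw [hval a b h]; exact hS a b h
    · rw [Finset.pair_comm, hval b a h]; exact hS b a h) L
  refine ⟨p, hp1, hp2, fun i j hij => ?_⟩
  have h1 := hp3 {i, j} (by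
    rw [Finset.mem_filter]
    exact ⟨Finset.mem_univ _, Finset.card_pair hij.ne⟩)
  rw [hval i j hij, Finset.prod_pair hij.ne] at h1
  push_cast at h1
  exact h1

theorem syr_eq {N M : ℤ} (v : ℕ) (h : 3 * N + 1 = 2 ^ v * M) (hM : M % 2 = 1) : Syr N = M :=
  Pool.Agent.W26.HN.Sy_eq h hM

theorem s1 : Syr (-1) = -1 := syr_eq 1 (by norm_num) (by norm_num)
theorem s5 : Syr (-5) = -7 := syr_eq 1 (by norm_num) (by norm_num)
theorem s7 : Syr (-7) = -5 := syr_eq 2 (by norm_num) (by norm_num)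
theorem s17 : Syr (-17) = -25 := syr_eq 1 (by norm_num) (by norm_num)
theorem s25 : Syr (-25) = -37 := syr_eq 1 (by norm_num) (by norm_num)
theorem s37 : Syr (-37) = -55 := syr_eq 1 (by norm_num) (by norm_num)
theorem s55 : Syr (-55) = -41 := syr_eq 2 (by norm_num) (by norm_num)
theorem s41 : Syr (-41) = -61 := syr_eq 1 (by norm_num) (by norm_num)
theorem s61 : Syr (-61) = -91 := syr_eq 1 (by norm_num) (by norm_num)
theorem s91 : Syr (-91) = -17 := syr_eq 4 (by norm_num) (by norm_num)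

theorem basin_closed {Z : Finset ℤ} (hZ : ∀ y ∈ Z, Syr y ∈ Z) : Closed (Basin Z) := by
  intro N _ _
  constructor
  · rintro ⟨m, hm⟩
    refine ⟨m, ?_⟩
    rw [← Function.iterate_succ_apply, Function.iterate_succ_apply']
    exact hZ _ hm
  · rintro ⟨m, hm⟩
    exact ⟨m + 1, by rw [Function.iterate_succ_apply]; exact hm⟩

theorem step₁ : ∀ y ∈ C₁, Syr y ∈ C₁ := by
  intro y hy
  unfold C₁ at hy ⊢
  rw [Finset.mem_singleton] at hy ⊢
  rw [hy, s1]

theorem step₂ : ∀ y ∈ C₂, Syr y ∈ C₂ := by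
  intro y hy
  unfold C₂ at hy ⊢
  rw [Finset.mem_insert, Finset.mem_singleton] at hy
  rcases hy with rfl | rfl
  · rw [s5]; simp
  · rw [s7]; simp

theorem step₃ : ∀ y ∈ C₃, Syr y ∈ C₃ := by
  intro y hy
  unfold C₃ at hy ⊢
  simp only [Finset.mem_insert, Finset.mem_singleton] at hy
  rcases hy with rfl | rfl | rfl | rfl | rfl | rfl | rfl
  · rw [s17]; simp
  · rw [s25]; simp
  · rw [s37]; simp
  · rw [s55]; simp
  · rw [s41]; simp
  · rw [s61]; simp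
  · rw [s91]; simp

/-- the `i`-th known cycle -/
def known (i : Fin 3) : Finset ℤ := if i = 0 then C₁ else if i = 1 then C₂ else C₃

theorem known_closed (i : Fin 3) : Closed (Basin (known i)) ∧ Occurs (Basin (known i)) := by
  unfold known
  split_ifs
  · exact ⟨basin_closed step₁, -1, by norm_num, by decide, 0, by simp [C₁]⟩
  · exact ⟨basin_closed step₂, -5, by norm_num, by decide, 0, by simp [C₂]⟩
  · exact ⟨basin_closed step₃, -17, by norm_num, by decide, 0, by simp [C₃]⟩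

theorem step_all : ∀ y ∈ C₁ ∪ C₂ ∪ C₃, Syr y ∈ C₁ ∪ C₂ ∪ C₃ := by
  intro y hy
  rw [Finset.mem_union, Finset.mem_union] at hy ⊢
  rcases hy with (hy | hy) | hy
  · exact Or.inl (Or.inl (step₁ y hy))
  · exact Or.inl (Or.inr (step₂ y hy))
  · exact Or.inr (step₃ y hy)

theorem compl_closed {S : Set ℤ} (hS : Closed S) : Closed Sᶜ := fun N h1 h2 => not_congr (hS N h1 h2)

/-- PRODUCTS OF PRIMES IN THE BASINS.

(1) The counting lemma: for all `k` and `ε > 0` there is `ϑ > 0` such that for all `θ > 0`, all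
sufficiently large scales `M`, all families `E` of sets of indices, admissible for the scales, all
sets `A i` of primes in `[M i, 2 M i)` and all sets `S e` of negative odd integers with densities `δ e`
which contain `N` iff they contain `Syr N`, the number of the `x` with `x i ∈ A i` such that
`- c e ∏_{r ∈ e} x r ∈ S e` for all `e` in `E` is `∏ δ e · ∏ |A i|` up to an error of at most `ε` times
the number of all tuples of primes of these sizes.
(2) The same for tame families (for example the edges of a graph) and the scales `N ^ R ^ i`.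
(3) If, in (2), all the sets `S e` contain negative odd integers then there are such increasing
sequences of arbitrarily large primes.
(4) The same for the products of pairs; every colouring of the pairs of indices by the three known
cycles is realised by increasing sequences of arbitrarily large primes `p` such that the orbit of
`- p i * p j` enters the cycle which belongs to `i < j`.
(5) The assertion of Q1 holds iff there are a finite graph `G` and an `L` such that `G` is not an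
induced subgraph of the graph of the primes `> L` in which `p` and `q` are joined iff the orbit
of `- p * q` meets none of the three known cycles. -/
theorem result :
    (∀ k : ℕ, ∀ ε : ℝ, 0 < ε → ∃ ϑ : ℝ, 0 < ϑ ∧ ϑ < 1 ∧ ∀ θ : ℝ, 0 < θ → ∃ N₀ : ℕ,
      ∀ M : Fin k → ℕ, (∀ i, N₀ ≤ M i) → ∀ (c : Finset (Fin k) → ℕ) (E : Finset (Finset (Fin k))),
      Admissible θ ϑ M c E → ∀ A : Fin k → Finset ℕ, (∀ i, A i ⊆ primesIn (M i)) →
      ∀ (S : Finset (Fin k) → Set ℤ) (δ : Finset (Fin k) → ℝ),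
      (∀ e ∈ E, Closed (S e) ∧ HasDensity (S e) (δ e)) →
      |(({x : Fin k → ℕ | (∀ i, x i ∈ A i) ∧ ∀ e ∈ E, value c e x ∈ S e}.ncard : ℕ) : ℝ)
        - (∏ e ∈ E, δ e) * ∏ i, ((A i).card : ℝ)| ≤ ε * ∏ i, ((primesIn (M i)).card : ℝ)) ∧
    (∀ k : ℕ, ∀ ε : ℝ, 0 < ε → ∃ R₀ : ℕ, 2 ≤ R₀ ∧ ∀ R : ℕ, R₀ ≤ R → ∃ N₀ : ℕ, ∀ N : ℕ, N₀ ≤ N →
      ∀ E : Finset (Finset (Fin k)), Tame E → ∀ (S : Finset (Fin k) → Set ℤ) (δ : Finset (Fin k) → ℝ),
      (∀ e ∈ E, Closed (S e) ∧ HasDensity (S e) (δ e)) →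
      |(({x : Fin k → ℕ | (∀ i : Fin k, x i ∈ primesIn (N ^ R ^ (i : ℕ))) ∧
          ∀ e ∈ E, -((∏ r ∈ e, x r : ℕ) : ℤ) ∈ S e}.ncard : ℕ) : ℝ)
        - (∏ e ∈ E, δ e) * ∏ i : Fin k, ((primesIn (N ^ R ^ (i : ℕ))).card : ℝ)|
      ≤ ε * ∏ i : Fin k, ((primesIn (N ^ R ^ (i : ℕ))).card : ℝ)) ∧
    (∀ (k : ℕ) (E : Finset (Finset (Fin k))), Tame E → ∀ S : Finset (Fin k) → Set ℤ,
      (∀ e ∈ E, Closed (S e) ∧ Occurs (S e)) → ∀ L : ℕ,
      ∃ p : Fin k → ℕ, StrictMono p ∧ (∀ i, (p i).Prime ∧ L < p i) ∧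
        ∀ e ∈ E, -((∏ r ∈ e, p r : ℕ) : ℤ) ∈ S e) ∧
    ((∀ (k : ℕ) (S : Fin k → Fin k → Set ℤ), (∀ i j, i < j → Closed (S i j) ∧ Occurs (S i j)) → ∀ L : ℕ,
        ∃ p : Fin k → ℕ, StrictMono p ∧ (∀ i, (p i).Prime ∧ L < p i) ∧
          ∀ i j, i < j → -((p i : ℤ) * p j) ∈ S i j) ∧
      ∀ (k : ℕ) (χ : Fin k → Fin k → Fin 3) (L : ℕ),
        ∃ p : Fin k → ℕ, StrictMono p ∧ (∀ i, (p i).Prime ∧ L < p i) ∧
          ∀ i j, i < j → ∃ m : ℕ, Syr^[m] (-((p i : ℤ) * p j)) ∈ known (χ i j)) ∧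
    ((∀ N : ℤ, N < 0 → Odd N → ∃ m : ℕ, Syr^[m] N ∈ C₁ ∪ C₂ ∪ C₃) ↔
      ∃ (k : ℕ) (G : SimpleGraph (Fin k)) (L : ℕ), ¬ ∃ p : Fin k → ℕ, StrictMono p ∧
        (∀ i, (p i).Prime ∧ L < p i) ∧
        ∀ i j, i < j → (G.Adj i j ↔ ∀ m : ℕ, Syr^[m] (-((p i : ℤ) * p j)) ∉ C₁ ∪ C₂ ∪ C₃)) := by
  classical
  refine ⟨part1, part2, part3, ⟨part4, fun k χ L => ?_⟩, ?_, ?_⟩
  · exact part4 k (fun i j => Basin (known (χ i j))) (fun i j _ => known_closed _) L
  · intro hQ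
    refine ⟨2, ⊤, 2, ?_⟩
    rintro ⟨p, _, hp, h⟩
    have h01 : (0 : Fin 2) < 1 := by decide
    have h1 := (h 0 1 h01).1 (by rw [SimpleGraph.top_adj]; exact h01.ne)
    have hodd : ∀ i, Odd (p i) := by
      intro i
      rcases (hp i).1.eq_two_or_odd' with h2 | h2
      · have := (hp i).2; omega
      · exact h2
    have hpos : ∀ i, (0 : ℤ) < p i := fun i => by exact_mod_cast (hp i).1.pos
    obtain ⟨m, hm⟩ := hQ (-((p 0 : ℤ) * p 1)) (by
      have := mul_pos (hpos 0) (hpos 1)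
      omega) (by
      exact (((Int.odd_coe_nat _).2 (hodd 0)).mul ((Int.odd_coe_nat _).2 (hodd 1))).neg)
    exact h1 m hm
  · rintro ⟨k, G, L, hno⟩
    by_contra hQ
    push Not at hQ
    obtain ⟨N, hN, hNo, hNC⟩ := hQ
    apply hno
    have hcl := basin_closed step_all
    obtain ⟨S, hS⟩ : ∃ S : Fin k → Fin k → Set ℤ, S = fun i j => if G.Adj i j then (Basin (C₁ ∪ C₂ ∪ C₃))ᶜ else Basin (C₁ ∪ C₂ ∪ C₃) := ⟨_, rfl⟩
    obtain ⟨p, hp1, hp2, hp3⟩ := part4 k S (by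
      intro i j _
      rw [hS]
      simp only
      split_ifs
      · refine ⟨compl_closed hcl, N, hN, hNo, ?_⟩
        rintro ⟨m, hm⟩
        exact hNC m hm
      · exact ⟨hcl, -1, by norm_num, by decide, 0, by simp [C₁]⟩) L
    refine ⟨p, hp1, hp2, fun i j hij => ?_⟩
    have h1 := hp3 i j hij
    rw [hS] at h1
    simp only at h1
    constructor
    · intro hG m hm
      rw [if_pos hG] at h1
      exact h1 ⟨m, hm⟩
    · intro h2
      by_contra hG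
      rw [if_neg hG] at h1
      obtain ⟨m, hm⟩ := h1
      exact h2 m hm

end Pool.Agent.Results.MP_005f52_nt.ProductPatterns
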